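import Pool.Agent.helper28.PV.SpecS

/-!
# Project pv, row HEF: self-maps of the Hawaiian earring
-/

set_option autoImplicit false

open scoped Matrix Topology
open Filter

namespace Pool.Agent.PV

open Pool.Agent.CZ

private theorem HEF_one (x : HE) : ∃ m : ℕ, ∀ i, i ≠ m → pr i x = 0 := by
  by_cases h : ∃ m, pr m x ≠ 0
  · obtain ⟨m, hm⟩ := h
    exact ⟨m, fun i hi => (x.2 i m hi).resolve_right hm⟩
  · refine ⟨0, fun i _ => ?_⟩
    by_contra hi
    exact h ⟨i, hi⟩

private theorem HEF_div (n : ℤ) (hn : n ≠ 0) (t : UnitAddCircle) : ∃ w : UnitAddCircle, n • w = t := by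
  obtain ⟨a, rfl⟩ := QuotientAddGroup.mk_surjective t
  refine ⟨((a / n : ℝ) : UnitAddCircle), ?_⟩
  have h1 : (n : ℝ) ≠ 0 := by exact_mod_cast hn
  rw [← AddCircle.coe_zsmul, zsmul_eq_mul, mul_div_cancel₀ _ h1]

theorem HEF (hLAM : LAM_stmt) (hKAP : KAP_stmt) : HEF_stmt := by
  intro c hc
  obtain ⟨lam, δ, l0, lsur, ldis, ldel⟩ := hLAM
  obtain ⟨k1', k2', -, -, k5'⟩ := hKAP
  -- the coordinates
  have hval : ∀ (x : ℕ → UnitAddCircle) (k m : ℕ), (∀ i, i ≠ m → x i = 0) →
      ∑ i ∈ (c k).support, (c k i) • lam k (x i) = (c k m) • lam k (x m) := by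
    intro x k m hx
    rw [Finset.sum_eq_single m]
    · intro i _ hi
      rw [hx i hi, l0, smul_zero]
    · intro hm
      rw [Finsupp.notMem_support_iff.mp hm, zero_smul]
  let f : C(HE, HE) :=
    { toFun := fun x => ⟨fun k => ∑ i ∈ (c k).support, (c k i) • lam k (pr i x), by
        intro k l hkl
        obtain ⟨m, hm⟩ := HEF_one x
        show ∑ i ∈ (c k).support, (c k i) • lam k (pr i x) = 0 ∨
          ∑ i ∈ (c l).support, (c l i) • lam l (pr i x) = 0
        rw [hval (fun i => pr i x) k m hm, hval (fun i => pr i x) l m hm]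
        rcases ldis k l hkl (pr m x) with h | h
        · left
          rw [h, smul_zero]
        · right
          rw [h, smul_zero]⟩
      continuous_toFun := by
        refine Continuous.subtype_mk (continuous_pi fun k => continuous_finsetSum _ fun i _ => ?_) _
        exact ((lam k).continuous.comp (pr i).continuous).zsmul _ }
  have hf : ∀ (x : HE) (k : ℕ), pr k (f x) = ∑ i ∈ (c k).support, (c k i) • lam k (pr i x) :=
    fun x k => rfl
  have hext : ∀ x y : HE, (∀ i, pr i x = pr i y) → x = y := fun x y h => Subtype.ext (funext h)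
  refine ⟨f, ?_, ?_⟩
  · intro y
    obtain ⟨k, hk⟩ := HEF_one y
    by_cases ht : pr k y = 0
    · refine ⟨inj 0 0, hext _ _ fun l => ?_⟩
      rw [hf]
      have h0 : ∀ i, pr i (inj 0 0) = 0 := by
        intro i
        show (Pi.single 0 (0 : UnitAddCircle) : ℕ → UnitAddCircle) i = 0
        rw [Pi.single_zero]
        rfl
      have h1 : pr l y = 0 := by
        by_cases hl : l = k
        · rw [hl, ht]
        · exact hk l hl
      rw [h1]
      refine Finset.sum_eq_zero fun i _ => ?_
      rw [h0, l0, smul_zero]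
    · obtain ⟨i, hi⟩ := Finsupp.ne_iff.mp (hc k)
      rw [Finsupp.coe_zero, Pi.zero_apply] at hi
      obtain ⟨w, hw⟩ := HEF_div (c k i) hi (pr k y)
      obtain ⟨s, hs⟩ := lsur k w
      have hw0 : lam k s ≠ 0 := by
        rw [hs]
        rintro rfl
        rw [smul_zero] at hw
        exact ht hw.symm
      have hinj : ∀ j, j ≠ i → pr j (inj i s) = 0 := by
        intro j hj
        show (Pi.single i s : ℕ → UnitAddCircle) j = 0
        rw [Pi.single_eq_of_ne hj]
      have hinj' : pr i (inj i s) = s := by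
        show (Pi.single i s : ℕ → UnitAddCircle) i = s
        rw [Pi.single_eq_same]
      refine ⟨inj i s, hext _ _ fun l => ?_⟩
      rw [hf, hval (fun j => pr j (inj i s)) l i hinj, hinj']
      by_cases hl : l = k
      · rw [hl, hs, hw]
      · rw [(ldis l k hl s).resolve_right hw0, smul_zero, hk l hl]
  · intro k
    let K : C(HE, UnitAddCircle) →+ K1 C(HE, ℂ) :=
      { toFun := kap
        map_zero' := k2' HE
        map_add' := k1' HE }
    have h1 : (pr k).comp f = ∑ i ∈ (c k).support, (c k i) • ((lam k).comp (pr i)) := by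
      ext x
      rw [ContinuousMap.coe_sum, Finset.sum_apply]
      show pr k (f x) = _
      rw [hf]
      rfl
    have h2 : ∀ i, kap ((lam k).comp (pr i)) = kap (pr i) := by
      intro i
      exact k5' HE (pr i) ((lam k).comp (pr i)) ((δ k).comp (pr i)) fun x => ldel k (pr i x)
    have h3 : kap ((pr k).comp f) = K ((pr k).comp f) := rfl
    rw [h3, h1, map_sum, Finsupp.sum]
    refine Finset.sum_congr rfl fun i _ => ?_
    rw [map_zsmul]
    show (c k i) • kap ((lam k).comp (pr i)) = _
    rw [h2]

end Pool.Agent.PV
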