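import Pool.Agent.helper45.PV.SpecG

set_option autoImplicit false

open scoped Matrix Topology

namespace Pool.Agent.PV

open Pool.Agent.CZ

theorem S21_comp (hFUN : FUN_stmt) {A B C : Type} [Ring A] [Ring B] [Ring C] [TopologicalSpace A]
    [TopologicalSpace B] [TopologicalSpace C] (φ : A →+* B) (ψ : B →+* C) (θ : A →+* C) (hφ : Continuous φ)
    (hψ : Continuous ψ) (hθ : Continuous θ) (h : ∀ a, ψ (φ a) = θ a) (z : K1 A) :
    k1map ψ hψ (k1map φ hφ z) = k1map θ hθ z := by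
  have e : θ = ψ.comp φ := RingHom.ext fun a => (h a).symm
  subst e
  exact (hFUN.2.2.2.2 A B C φ ψ hφ hψ hθ z).symm

/-- a homomorphism which factors through `ℂ` is 0 on `K₁` -/
theorem S21_zero (hFUN : FUN_stmt) (hKC : KC_stmt) {A B : Type} [NormedRing A] [NormedAlgebra ℂ A] [NormedRing B]
    [NormedAlgebra ℂ B] (φ : A →+* B) (hφ : Continuous φ) (χ : A →ₐ[ℂ] ℂ) (hχ : Continuous χ)
    (h : ∀ a, φ a = algebraMap ℂ B (χ a)) (z : K1 A) : k1map φ hφ z = 0 := by
  rw [← S21_comp hFUN χ.toRingHom (algebraMap ℂ B) φ hχ (continuous_algebraMap ℂ B) hφ (fun a => (h a).symm) z,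
    hKC.2.2 (k1map χ.toRingHom hχ z), map_zero]

theorem S21 (hFUN : FUN_stmt) (hSX1 : SX1_stmt) (hBOT : BOT_stmt) (hKC : KC_stmt) (hCPL : CPL_stmt)
    (hS1S : S1S_stmt) (hS2S : S2S_stmt) (hBNT : BNT_stmt) : S21_stmt := by
  intro D _ _ _ χ hχ
  obtain ⟨be, d, hbe, hdbe, -, helbe, hdec⟩ := hBOT D
  obtain ⟨be', d', hbe', hdbe', -, -, -⟩ := hBOT ℂ
  have : CompleteSpace (L1 D) := hCPL.1 D
  have : CompleteSpace (L2 χ) := hCPL.2.2 D χ hχ
  have hv : Continuous (vL D).toRingHom := vL_cont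
  have hi : Continuous (i2 χ).toRingHom := i2_cont χ
  have hc : Continuous (cmpC UnitAddCircle χ hχ).toRingHom :=
    ContinuousMap.continuous_postcomp (⟨χ, hχ⟩ : C(D, ℂ))
  have hec : Continuous (ec χ hχ).toRingHom := (hS2S D χ hχ).ce
  have hrL : Continuous (rLG D).toRingHom := (hS2S D χ hχ).cr
  have hX1 := hSX1 (L1 D) C(UnitAddCircle, D) D (vL D) (el D) (cl D) hv (cl_cont D) (hS1S D)
  have hX2 := hSX1 (L2 χ) (L1 D) C(UnitAddCircle, ℂ) (i2 χ) (ec χ hχ) (rLG D) hi hrL (hS2S D χ hχ)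
  have hnat := hBNT D χ hχ hc be be' hbe hbe'
  -- the factorisations
  have f1 : ∀ x : K1 (L1 D), k1map (el D).toRingHom (el_cont D) (k1map (vL D).toRingHom hv x) = 0 := by
    intro x
    rw [S21_comp hFUN (vL D).toRingHom (el D).toRingHom (pL D 0).toRingHom hv (el_cont D) (pL_cont D 0)
      (fun a => rfl)]
    exact S21_zero hFUN hKC (pL D 0).toRingHom (pL_cont D 0) (eL χ) (eL_cont χ hχ) (fun a => L1_eq χ a) x
  have f2 : ∀ x : K1 (L1 D), k1map (cmpC UnitAddCircle χ hχ).toRingHom hc (k1map (vL D).toRingHom hv x) =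
      k1map (ec χ hχ).toRingHom hec x := by
    intro x
    exact S21_comp hFUN (vL D).toRingHom (cmpC UnitAddCircle χ hχ).toRingHom (ec χ hχ).toRingHom hv hc hec
      (fun a => rfl) x
  have f3 : ∀ y : K1 (L2 χ), k1map (ec χ hχ).toRingHom hec (k1map (i2 χ).toRingHom hi y) = 0 := by
    intro y
    have h1 : Continuous ((ec χ hχ).comp (i2 χ)).toRingHom := hec.comp hi
    rw [S21_comp hFUN (i2 χ).toRingHom (ec χ hχ).toRingHom ((ec χ hχ).comp (i2 χ)).toRingHom hi hec h1
      (fun a => rfl)]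
    refine S21_zero hFUN hKC _ h1 (e2 χ) (e2_cont χ hχ) (fun a => ?_) y
    ext t
    exact L2_eq' χ a t
  have f4 : ∀ y : K1 C(UnitAddCircle, ℂ), k1map (ec χ hχ).toRingHom hec (k1map (rLG D).toRingHom hrL y) = y := by
    intro y
    rw [S21_comp hFUN (rLG D).toRingHom (ec χ hχ).toRingHom (RingHom.id _) hrL hec continuous_id
      (fun a => (hS2S D χ hχ).er a)]
    exact hFUN.2.2.2.1 _ y
  have f5 : ∀ y : K1 D, k1map (el D).toRingHom (el_cont D) (k1map (cl D).toRingHom (cl_cont D) y) = y := by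
    intro y
    rw [S21_comp hFUN (cl D).toRingHom (el D).toRingHom (RingHom.id _) (cl_cont D) (el_cont D) continuous_id
      (fun a => rfl)]
    exact hFUN.2.2.2.1 _ y
  set W : K1 (L2 χ) →+ K1 C(UnitAddCircle, D) :=
    (k1map (vL D).toRingHom hv).comp (k1map (i2 χ).toRingHom hi) with hW
  have g1 : ∀ y, W y = be (d (W y)) := by
    intro y
    have h1 := hdec (W y)
    have h2 : k1map (el D).toRingHom (el_cont D) (W y) = 0 := f1 _
    rw [h2, map_zero, zero_add] at h1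
    exact h1
  have g2 : ∀ y, k0map χ.toRingHom (d (W y)) = 0 := by
    intro y
    have h1 := hnat (d (W y))
    rw [← g1] at h1
    have h2 : k1map (cmpC UnitAddCircle χ hχ).toRingHom hc (W y) = 0 := by
      change k1map (cmpC UnitAddCircle χ hχ).toRingHom hc (k1map (vL D).toRingHom hv _) = 0
      rw [f2]
      exact f3 y
    rw [h2] at h1
    have h3 := hdbe' (k0map χ.toRingHom (d (W y)))
    rw [← h1, map_zero] at h3
    exact h3.symm
  refine ⟨AddEquiv.ofBijective ((d.comp W).codRestrict (k0map χ.toRingHom).ker fun y => g2 y) ⟨?_, ?_⟩⟩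
  · rw [injective_iff_map_eq_zero]
    intro y hy
    have h1 : d (W y) = 0 := congrArg Subtype.val hy
    have h2 := g1 y
    rw [h1, map_zero] at h2
    have h3 : k1map (vL D).toRingHom hv (k1map (i2 χ).toRingHom hi y) +
        k1map (cl D).toRingHom (cl_cont D) 0 = 0 := by
      rw [map_zero, add_zero]
      exact h2
    have h4 := (hX1.2 _ _ h3).1
    have h5 : k1map (i2 χ).toRingHom hi y + k1map (rLG D).toRingHom hrL 0 = 0 := by
      rw [map_zero, add_zero]
      exact h4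
    exact (hX2.2 _ _ h5).1
  · rintro ⟨v, hv0⟩
    have hv1 : k0map χ.toRingHom v = 0 := hv0
    obtain ⟨y1, y2, h1⟩ := hX1.1 (be v)
    have h2 := helbe v
    rw [h1, map_add, f1, zero_add, f5] at h2
    rw [h2, map_zero, add_zero] at h1
    obtain ⟨y, y3, h3⟩ := hX2.1 y1
    have h4 : k1map (ec χ hχ).toRingHom hec y1 = 0 := by
      rw [← f2, ← h1, hnat, hv1, map_zero]
    rw [h3, map_add, f3, zero_add, f4] at h4
    rw [h4, map_zero, add_zero] at h3
    refine ⟨y, Subtype.ext ?_⟩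
    change d (k1map (vL D).toRingHom hv (k1map (i2 χ).toRingHom hi y)) = v
    rw [← h3, ← h1, hdbe]

end Pool.Agent.PV
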