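import Pool.Agent.helper53.PV.SpecF

/-!
# Project pv, row FOF: the complement of an orbit is dense
-/

set_option autoImplicit false

open scoped Topology
open MeasureTheory Filter

namespace Pool.Agent.PV

open Pool.Agent.CZ

theorem FOF : FOF_stmt := by
  intro X _ _ _ _ α hα x U hU hne
  have hiso : ∀ y : X, ¬ IsOpen ({y} : Set X) := by
    intro y hy
    have hall : ∀ z : X, IsOpen ({z} : Set X) := by
      intro z
      obtain ⟨w, hw, n, hn⟩ := (hα z).inter_open_nonempty {y} hy ⟨y, rfl⟩
      have hwy : w = y := hw
      have hzy : (α ^ n) z = y := by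
        rw [← hwy]
        exact hn
      have h1 : ({z} : Set X) = (α ^ n) ⁻¹' {y} := by
        ext t
        rw [Set.mem_singleton_iff, Set.mem_preimage, Set.mem_singleton_iff, ← hzy]
        exact ⟨fun h => by rw [h], fun h => (α ^ n).injective h⟩
      rw [h1]
      exact hy.preimage (α ^ n).continuous
    have : DiscreteTopology X := discreteTopology_iff_isOpen_singleton.mpr hall
    have : Finite X := finite_of_compact_of_discrete
    exact not_finite X
  have hd : Dense (⋂ n : ℤ, ({(α ^ n) x}ᶜ : Set X)) :=
    dense_iInter_of_isOpen (fun n => isOpen_compl_singleton)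
      (fun n => dense_compl_singleton_iff_not_open.mpr (hiso _))
  obtain ⟨y, hyU, hy⟩ := hd.inter_open_nonempty U hU hne
  refine ⟨y, hyU, fun n hn => ?_⟩
  have h2 := Set.mem_iInter.mp hy n
  exact h2 hn.symm

end Pool.Agent.PV
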