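import Pool.Agent.helper77.PV.SpecK

set_option autoImplicit false

namespace Pool.Agent.PV

open Pool.Agent.CZ Pool.Agent.PVH

theorem KHI : KHI_stmt := by
  intro A _ G₀ _ g G₁ _ E _ _ _ K ρ h G₀' G₁' _ _ f e ρ' hρ
  obtain ⟨φ, ψ, τ, h1, h2, h3, h4⟩ := h
  refine ⟨φ.trans f, ψ.trans e, τ, ?_, h2, h3, ?_⟩
  · show f (φ (unitCls A)) = f g
    rw [h1]
  · intro t z
    show pair (τ t) z = ((ρ' (f (φ z)) t : ℝ) : ℂ)
    rw [hρ]
    exact h4 t z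

end Pool.Agent.PV
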