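import Pool.Agent.helper77.PV.SpecB

/-!
# Project pv, row QPA: the path of units
-/

set_option autoImplicit false

open scoped Matrix Topology
open Filter

namespace Pool.Agent.PV

open Pool.Agent.CZ

/-- the telescoping series -/
private theorem QPA_tel {A : Type} [NormedRing A] [NormedAlgebra ℂ A] [CompleteSpace A] (s : ℝ)
    (hs0 : 0 ≤ s) (hs1 : s < 1) (F G : ℕ → A) (C : ℝ) (hG : ∀ n, ‖G n‖ ≤ C) (z : A)
    (h0 : F 0 = z + (s : ℂ) • G 0) (h : ∀ n, F (n + 1) = -G n + (s : ℂ) • G (n + 1)) :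
    HasSum (fun n : ℕ => ((s : ℂ) ^ n) • F n) z := by
  have hC : 0 ≤ C := (norm_nonneg _).trans (hG 0)
  have hsn : ‖(s : ℂ)‖ = s := by rw [Complex.norm_real, Real.norm_of_nonneg hs0]
  have hsG : ∀ n, ‖(s : ℂ) • G n‖ ≤ C := by
    intro n
    rw [norm_smul, hsn]
    calc s * ‖G n‖ ≤ 1 * C := mul_le_mul hs1.le (hG n) (norm_nonneg _) zero_le_one
      _ = C := one_mul C
  have hF : ∀ n, ‖F n‖ ≤ ‖z‖ + 2 * C := by
    intro n
    cases n with
    | zero =>
      rw [h0]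
      refine (norm_add_le _ _).trans ?_
      linarith [hsG 0]
    | succ n =>
      rw [h]
      refine (norm_add_le _ _).trans ?_
      rw [norm_neg]
      linarith [hsG (n + 1), hG n, norm_nonneg z]
  have hsum : Summable (fun n : ℕ => ((s : ℂ) ^ n) • F n) := by
    refine Summable.of_norm_bounded (g := fun n : ℕ => s ^ n * (‖z‖ + 2 * C)) ?_ ?_
    · exact (summable_geometric_of_lt_one hs0 hs1).mul_right _
    · intro n
      rw [norm_smul, norm_pow, hsn]
      exact mul_le_mul_of_nonneg_left (hF n) (pow_nonneg hs0 n)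
  have hpart : ∀ N : ℕ, ∑ n ∈ Finset.range (N + 1), ((s : ℂ) ^ n) • F n =
      z + ((s : ℂ) ^ (N + 1)) • G N := by
    intro N
    induction N with
    | zero =>
      rw [Finset.sum_range_one, pow_zero, one_smul, h0, zero_add, pow_one]
    | succ N ih =>
      rw [Finset.sum_range_succ, ih, h, smul_add, smul_neg, smul_smul, ← pow_succ]
      abel
  have hlim : Tendsto (fun N : ℕ => z + ((s : ℂ) ^ (N + 1)) • G N) atTop (𝓝 z) := by
    have h1 : Tendsto (fun N : ℕ => ((s : ℂ) ^ (N + 1)) • G N) atTop (𝓝 0) := by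
      refine squeeze_zero_norm (a := fun N : ℕ => s ^ (N + 1) * C) ?_ ?_
      · intro N
        rw [norm_smul, norm_pow, hsn]
        exact mul_le_mul_of_nonneg_left (hG N) (pow_nonneg hs0 _)
      · have h2 := (tendsto_pow_atTop_nhds_zero_of_lt_one hs0 hs1).comp (tendsto_add_atTop_nat 1)
        have h3 := h2.mul_const C
        rw [zero_mul] at h3
        exact h3
    have h4 := h1.const_add z
    rw [add_zero] at h4
    exact h4
  have h5 := hsum.hasSum.tendsto_sum_nat.comp (tendsto_add_atTop_nat 1)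
  have h6 : Tendsto (fun N : ℕ => ∑ n ∈ Finset.range (N + 1), ((s : ℂ) ^ n) • F n) atTop (𝓝 z) := by
    rw [funext hpart]
    exact hlim
  have h7 := tendsto_nhds_unique h5 h6
  rw [← h7]
  exact hsum.hasSum

private theorem QPA_pow {A : Type} [NormedRing A] (u : A) (hu : ‖u‖ ≤ 1) (k : ℕ) :
    ‖u ^ k‖ ≤ max ‖(1 : A)‖ 1 := by
  rcases Nat.eq_zero_or_pos k with h | h
  · rw [h, pow_zero]
    exact le_max_left _ _
  · refine (norm_pow_le' u h).trans ((pow_le_one₀ (norm_nonneg _) hu).trans (le_max_right _ _))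

private theorem QPA_zpow {A : Type} [NormedRing A] (u : Aˣ) (hu : ‖(u : A)‖ ≤ 1)
    (hu' : ‖((u⁻¹ : Aˣ) : A)‖ ≤ 1) (n : ℤ) : ‖((u ^ n : Aˣ) : A)‖ ≤ max ‖(1 : A)‖ 1 := by
  rcases Int.eq_nat_or_neg n with ⟨k, rfl | rfl⟩
  · rw [zpow_natCast, Units.val_pow_eq_pow_val]
    exact QPA_pow _ hu k
  · rw [zpow_neg, zpow_natCast, ← inv_pow, Units.val_pow_eq_pow_val]
    exact QPA_pow _ hu' k

private theorem QPA_al {B : Type} [NormedRing B] [NormedAlgebra ℂ B] (al : B ≃ₐ[ℂ] B)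
    (hal : ∀ b, ‖al b‖ = ‖b‖) (n : ℤ) (b : B) : ‖(al ^ n) b‖ = ‖b‖ := by
  have hpow : ∀ (k : ℕ) (b : B), ‖(al ^ k) b‖ = ‖b‖ := by
    intro k
    induction k with
    | zero =>
      intro b
      rw [pow_zero]
      rfl
    | succ k ih =>
      intro b
      rw [pow_succ]
      show ‖(al ^ k) (al b)‖ = ‖b‖
      rw [ih, hal]
  rcases Int.eq_nat_or_neg n with ⟨k, rfl | rfl⟩
  · rw [zpow_natCast]
    exact hpow k b
  · rw [zpow_neg, zpow_natCast]
    have h1 : (al ^ k) ((al ^ k)⁻¹ b) = b := (al ^ k).apply_symm_apply b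
    rw [← hpow k ((al ^ k)⁻¹ b), h1]

theorem QPA (hZC : ZC_stmt) (hQS : QS_stmt) (hQD : QD_stmt) : QPA_stmt := by
  intro B A _ _ _ _ _ _ al io u c hZ a b L hL s hs0 hs1
  obtain ⟨z1, -, -, -, -, -, -⟩ := hZC B A al io u c hZ
  obtain ⟨e1, e2, -⟩ := hQS B A al io u c hZ a b L hL
  have hQ := hQD B A al io u c hZ a b L hL
  set r : ℤ → B := fun n => c n ((L⁻¹ : Aˣ) : A) with hr
  set q : B := c (-1) ((L⁻¹ : Aˣ) : A) * al.symm b with hq
  set q' : B := b * al (c (-1) ((L⁻¹ : Aˣ) : A)) with hq'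
  rcases hs1.lt_or_eq with hs | hs
  swap
  · rw [hs, Complex.ofReal_one, one_smul, one_smul, ← mul_add, sub_add_cancel, mul_one, ← hL]
    exact L.isUnit
  set K : ℝ := max ‖(1 : A)‖ 1 with hK
  have hK0 : 0 ≤ K := zero_le_one.trans (le_max_right _ _)
  have hu : ∀ n : ℤ, ‖((u ^ n : Aˣ) : A)‖ ≤ K := QPA_zpow u hZ.nu hZ.nui
  have hrn : ∀ n, ‖r n‖ ≤ ‖((L⁻¹ : Aˣ) : A)‖ := fun n => hZ.cnorm n _
  -- the monomials
  have hmon : ∀ (x : B) (n : ℤ), ‖io x * ((u ^ n : Aˣ) : A)‖ ≤ ‖x‖ * K := by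
    intro x n
    refine (norm_mul_le _ _).trans ?_
    rw [hZ.isoA]
    exact mul_le_mul_of_nonneg_left (hu n) (norm_nonneg _)
  set R : ℤ → A := fun n => io (r n) * ((u ^ n : Aˣ) : A) with hR
  set P : ℤ → A := fun n => io (a * r n) * ((u ^ n : Aˣ) : A) with hP
  set M : ℤ → A := fun n => io (b * al (r n)) * ((u ^ (n + 1) : Aˣ) : A) with hM
  set P' : ℤ → A := fun n => io (r n * (al ^ n) a) * ((u ^ n : Aˣ) : A) with hP'
  set M' : ℤ → A := fun n => io (r n * (al ^ n) b) * ((u ^ (n + 1) : Aˣ) : A) with hM'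
  have hMb : ∀ n, ‖M n‖ ≤ ‖b‖ * ‖((L⁻¹ : Aˣ) : A)‖ * K := by
    intro n
    refine (hmon _ _).trans (mul_le_mul_of_nonneg_right ?_ hK0)
    refine (norm_mul_le _ _).trans ?_
    rw [hZ.isoB]
    exact mul_le_mul_of_nonneg_left (hrn n) (norm_nonneg _)
  have hMb' : ∀ n, ‖M' n‖ ≤ ‖((L⁻¹ : Aˣ) : A)‖ * ‖b‖ * K := by
    intro n
    refine (hmon _ _).trans (mul_le_mul_of_nonneg_right ?_ hK0)
    refine (norm_mul_le _ _).trans ?_
    rw [QPA_al al hZ.isoB]
    exact mul_le_mul_of_nonneg_right (hrn n) (norm_nonneg _)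
  have hu1 : ∀ n : ℤ, (u : A) * ((u ^ n : Aˣ) : A) = ((u ^ (n + 1) : Aˣ) : A) := by
    intro n
    rw [← Units.val_mul]
    congr 1
    rw [add_comm, zpow_add, zpow_one]
  have hu2 : ∀ n : ℤ, ((u ^ n : Aˣ) : A) * (u : A) = ((u ^ (n + 1) : Aˣ) : A) := by
    intro n
    rw [← Units.val_mul]
    congr 1
    rw [zpow_add, zpow_one]
  -- the relations
  have rel1 : ∀ n : ℤ, P n + M (n - 1) = if n = 0 then 1 else 0 := by
    intro n
    have h1 : P n + M (n - 1) = io (a * r n + b * al (r (n - 1))) * ((u ^ n : Aˣ) : A) := by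
      simp only [hP, hM]
      rw [sub_add_cancel, ← add_mul, ← map_add]
    rw [h1, e1 n]
    by_cases hn : n = 0
    · rw [if_pos hn, if_pos hn, hn, map_one, zpow_zero, Units.val_one, one_mul]
    · rw [if_neg hn, if_neg hn, map_zero, zero_mul]
  have rel2 : ∀ n : ℤ, P' n + M' (n - 1) = if n = 0 then 1 else 0 := by
    intro n
    have h1 : P' n + M' (n - 1) =
        io (r n * (al ^ n) a + r (n - 1) * (al ^ (n - 1)) b) * ((u ^ n : Aˣ) : A) := by
      simp only [hP', hM']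
      rw [sub_add_cancel, ← add_mul, ← map_add]
    rw [h1, e2 n]
    by_cases hn : n = 0
    · rw [if_pos hn, if_pos hn, hn, map_one, zpow_zero, Units.val_one, one_mul]
    · rw [if_neg hn, if_neg hn, map_zero, zero_mul]
  have haR : ∀ n, io a * R n = P n := by
    intro n
    simp only [hR, hP]
    rw [map_mul, mul_assoc]
  have hbR : ∀ n, (io b * (u : A)) * R n = M n := by
    intro n
    simp only [hR, hM]
    rw [map_mul, mul_assoc (io b), ← mul_assoc (u : A), hZ.cov, mul_assoc (io (al (r n))), hu1,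
      ← mul_assoc]
  have hRa : ∀ n, R n * io a = P' n := by
    intro n
    simp only [hR, hP']
    rw [mul_assoc, z1, ← mul_assoc, ← map_mul]
  have hRb : ∀ n, R n * (io b * (u : A)) = M' n := by
    intro n
    simp only [hR, hM']
    rw [mul_assoc, ← mul_assoc _ (io b), z1, mul_assoc (io ((al ^ n) b)), hu2, ← mul_assoc,
      ← map_mul]
  have hQRn : ∀ n : ℤ, n < 0 → io q * R n = R n := by
    intro n hn
    simp only [hR]
    rw [← mul_assoc, ← map_mul]
    have := hQ.qn n hn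
    rw [this]
  have hQRp : ∀ n : ℤ, 0 ≤ n → io q * R n = 0 := by
    intro n hn
    simp only [hR]
    rw [← mul_assoc, ← map_mul]
    have := hQ.qp n hn
    rw [this, map_zero, zero_mul]
  have hRQn : ∀ n : ℤ, n < 0 → R n * io q' = R n := by
    intro n hn
    simp only [hR]
    rw [mul_assoc, z1, ← mul_assoc, ← map_mul]
    have := hQ.nq n hn
    rw [this]
  have hRQp : ∀ n : ℤ, 0 ≤ n → R n * io q' = 0 := by
    intro n hn
    simp only [hR]
    rw [mul_assoc, z1, ← mul_assoc, ← map_mul]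
    have := hQ.pq n hn
    rw [this, map_zero, zero_mul]
  set X : A := io a + (s : ℂ) • (io b * (u : A)) with hX
  set Y : A := (s : ℂ) • io a + io b * (u : A) with hY
  set T : A := X * (1 - io q) + Y * io q with hT
  have hT' : T = (1 - io q') * X + io q' * Y := by
    have g1 : io a * io q = io q' * io a := by rw [← map_mul, ← map_mul, hQ.aq]
    have g2 : (io b * (u : A)) * io q = io q' * (io b * (u : A)) := by
      rw [mul_assoc, hZ.cov, ← mul_assoc, ← map_mul, hQ.bq, map_mul, mul_assoc]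
    rw [hT, hX, hY]
    simp only [mul_sub, sub_mul, mul_one, one_mul, add_mul, mul_add, smul_mul_assoc, mul_smul_comm,
      g1, g2, smul_sub, smul_add]
    abel
  have hXR : ∀ n, X * R n = P n + (s : ℂ) • M n := by
    intro n
    rw [hX, add_mul, smul_mul_assoc, haR, hbR]
  have hYR : ∀ n, Y * R n = (s : ℂ) • P n + M n := by
    intro n
    rw [hY, add_mul, smul_mul_assoc, haR, hbR]
  have hRX : ∀ n, R n * X = P' n + (s : ℂ) • M' n := by
    intro n
    rw [hX, mul_add, mul_smul_comm, hRa, hRb]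
  have hRY : ∀ n, R n * Y = (s : ℂ) • P' n + M' n := by
    intro n
    rw [hY, mul_add, mul_smul_comm, hRa, hRb]
  have hTp : ∀ n : ℤ, 0 ≤ n → T * R n = P n + (s : ℂ) • M n := by
    intro n hn
    rw [hT, add_mul, mul_assoc, mul_assoc, sub_mul, one_mul, hQRp n hn, sub_zero, mul_zero,
      add_zero, hXR]
  have hTn : ∀ n : ℤ, n < 0 → T * R n = (s : ℂ) • P n + M n := by
    intro n hn
    rw [hT, add_mul, mul_assoc, mul_assoc, sub_mul, one_mul, hQRn n hn, sub_self, mul_zero,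
      zero_add, hYR]
  have hRTp : ∀ n : ℤ, 0 ≤ n → R n * T = P' n + (s : ℂ) • M' n := by
    intro n hn
    rw [hT', mul_add, ← mul_assoc, ← mul_assoc, mul_sub, mul_one, hRQp n hn, sub_zero, zero_mul,
      add_zero, hRX]
  have hRTn : ∀ n : ℤ, n < 0 → R n * T = (s : ℂ) • P' n + M' n := by
    intro n hn
    rw [hT', mul_add, ← mul_assoc, ← mul_assoc, mul_sub, mul_one, hRQn n hn, sub_self, zero_mul,
      zero_add, hRY]
  -- the two series
  have hsn : ‖(s : ℂ)‖ = s := by rw [Complex.norm_real, Real.norm_of_nonneg hs0]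
  have hRb' : ∀ n, ‖R n‖ ≤ ‖((L⁻¹ : Aˣ) : A)‖ * K := fun n =>
    (hmon _ _).trans (mul_le_mul_of_nonneg_right (hrn n) hK0)
  have hsumm : ∀ g : ℕ → ℤ, Summable (fun n : ℕ => ((s : ℂ) ^ n) • R (g n)) := by
    intro g
    refine Summable.of_norm_bounded (g := fun n : ℕ => s ^ n * (‖((L⁻¹ : Aˣ) : A)‖ * K)) ?_ ?_
    · exact (summable_geometric_of_lt_one hs0 hs).mul_right _
    · intro n
      rw [norm_smul, norm_pow, hsn]
      exact mul_le_mul_of_nonneg_left (hRb' _) (pow_nonneg hs0 n)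
  set S1 : A := ∑' n : ℕ, ((s : ℂ) ^ n) • R (n : ℤ) with hS1
  set S2 : A := ∑' n : ℕ, ((s : ℂ) ^ n) • R (-(n : ℤ) - 1) with hS2
  have h1 : HasSum (fun n : ℕ => ((s : ℂ) ^ n) • R (n : ℤ)) S1 := (hsumm _).hasSum
  have h2 : HasSum (fun n : ℕ => ((s : ℂ) ^ n) • R (-(n : ℤ) - 1)) S2 :=
    (hsumm fun n => -(n : ℤ) - 1).hasSum
  -- left
  have l1 : T * S1 = P 0 := by
    have k1 := h1.mul_left T
    have k2 : (fun n : ℕ => T * (((s : ℂ) ^ n) • R (n : ℤ))) =
        fun n : ℕ => ((s : ℂ) ^ n) • (P n + (s : ℂ) • M n) := by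
      funext n
      rw [mul_smul_comm, hTp _ (Int.natCast_nonneg n)]
    rw [k2] at k1
    refine k1.unique (QPA_tel s hs0 hs (fun n : ℕ => P n + (s : ℂ) • M n) (fun n : ℕ => M n) _
      (fun n => hMb n) (P 0) (by simp) ?_)
    intro n
    have k3 := rel1 ((n : ℤ) + 1)
    rw [if_neg (by omega), add_sub_cancel_right] at k3
    have k4 : P ((n : ℤ) + 1) = - M n := eq_neg_of_add_eq_zero_left k3
    push_cast
    rw [k4]
  have l2 : T * S2 = M (-1) := by
    have k1 := h2.mul_left T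
    have k2 : (fun n : ℕ => T * (((s : ℂ) ^ n) • R (-(n : ℤ) - 1))) =
        fun n : ℕ => ((s : ℂ) ^ n) • (M (-(n : ℤ) - 1) + (s : ℂ) • (- M (-(n : ℤ) - 2))) := by
      funext n
      have k3 := rel1 (-(n : ℤ) - 1)
      rw [if_neg (by omega), sub_sub, show (1 : ℤ) + 1 = 2 by norm_num] at k3
      rw [mul_smul_comm, hTn _ (by omega), eq_neg_of_add_eq_zero_left k3, add_comm]
    rw [k2] at k1
    refine k1.unique (QPA_tel s hs0 hs
      (fun n : ℕ => M (-(n : ℤ) - 1) + (s : ℂ) • (- M (-(n : ℤ) - 2)))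
      (fun n : ℕ => - M (-(n : ℤ) - 2)) (‖b‖ * ‖((L⁻¹ : Aˣ) : A)‖ * K)
      (fun n => by rw [norm_neg]; exact hMb _) (M (-1)) (by simp) ?_)
    intro n
    simp only [neg_neg]
    rw [show -(((n + 1 : ℕ) : ℤ)) - 1 = -(n : ℤ) - 2 by push_cast; ring]
  have r1 : S1 * T = P' 0 := by
    have k1 := h1.mul_right T
    have k2 : (fun n : ℕ => (((s : ℂ) ^ n) • R (n : ℤ)) * T) =
        fun n : ℕ => ((s : ℂ) ^ n) • (P' n + (s : ℂ) • M' n) := by
      funext n
      rw [smul_mul_assoc, hRTp _ (Int.natCast_nonneg n)]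
    rw [k2] at k1
    refine k1.unique (QPA_tel s hs0 hs (fun n : ℕ => P' n + (s : ℂ) • M' n) (fun n : ℕ => M' n) _
      (fun n => hMb' n) (P' 0) (by simp) ?_)
    intro n
    have k3 := rel2 ((n : ℤ) + 1)
    rw [if_neg (by omega), add_sub_cancel_right] at k3
    have k4 : P' ((n : ℤ) + 1) = - M' n := eq_neg_of_add_eq_zero_left k3
    push_cast
    rw [k4]
  have r2 : S2 * T = M' (-1) := by
    have k1 := h2.mul_right T
    have k2 : (fun n : ℕ => (((s : ℂ) ^ n) • R (-(n : ℤ) - 1)) * T) =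
        fun n : ℕ => ((s : ℂ) ^ n) • (M' (-(n : ℤ) - 1) + (s : ℂ) • (- M' (-(n : ℤ) - 2))) := by
      funext n
      have k3 := rel2 (-(n : ℤ) - 1)
      rw [if_neg (by omega), sub_sub, show (1 : ℤ) + 1 = 2 by norm_num] at k3
      rw [smul_mul_assoc, hRTn _ (by omega), eq_neg_of_add_eq_zero_left k3, add_comm]
    rw [k2] at k1
    refine k1.unique (QPA_tel s hs0 hs
      (fun n : ℕ => M' (-(n : ℤ) - 1) + (s : ℂ) • (- M' (-(n : ℤ) - 2)))
      (fun n : ℕ => - M' (-(n : ℤ) - 2)) (‖((L⁻¹ : Aˣ) : A)‖ * ‖b‖ * K)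
      (fun n => by rw [norm_neg]; exact hMb' _) (M' (-1)) (by simp) ?_)
    intro n
    simp only [neg_neg]
    rw [show -(((n + 1 : ℕ) : ℤ)) - 1 = -(n : ℤ) - 2 by push_cast; ring]
  have t1 : T * (S1 + S2) = 1 := by
    rw [mul_add, l1, l2]
    have k := rel1 0
    rw [if_pos rfl, zero_sub] at k
    exact k
  have t2 : (S1 + S2) * T = 1 := by
    rw [add_mul, r1, r2]
    have k := rel2 0
    rw [if_pos rfl, zero_sub] at k
    exact k
  exact ⟨⟨T, S1 + S2, t1, t2⟩, rfl⟩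

end Pool.Agent.PV
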